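import Pool.Agent.H87.NC.LL.Pol

set_option autoImplicit false

/-!
# The shift and the polynomial sequences generate a nilpotent group
-/

namespace Pool.Agent.H87.NC.LL

open scoped commutatorElement

/-- the filtration: each term of the lower central series is repeated `e` times -/
def Fil {G : Type} [Group G] (S : Subgroup G) (e : ℕ) (i : ℕ) : Subgroup G :=
  S.lowerCentralSeries ((i - 1) / e)

section
variable {G : Type} [Group G] {S : Subgroup G} {e : ℕ}

theorem Fil_anti (i : ℕ) : Fil S e (i + 1) ≤ Fil S e i :=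
  S.lowerCentralSeries_antitone (Nat.div_le_div_right (by omega))

theorem Fil_comm (he : 1 ≤ e) (i j : ℕ) : ⁅Fil S e i, Fil S e j⁆ ≤ Fil S e (i + j) := by
  refine (Pool.Agent.H87.NC.LCN.lcs_comm S _ _).trans (S.lowerCentralSeries_antitone ?_)
  rw [Nat.div_le_iff_le_mul_add_pred (by omega)]
  have h1 := Nat.div_add_mod (i - 1) e
  have h2 := Nat.div_add_mod (j - 1) e
  have h3 := Nat.mod_lt (i - 1) (show 0 < e by omega)
  have h4 := Nat.mod_lt (j - 1) (show 0 < e by omega)
  have h5 : e * ((i - 1) / e + (j - 1) / e + 1) = e * ((i - 1) / e) + e * ((j - 1) / e) + e := by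
    ring
  rw [h5]
  omega

/-- the powers with polynomial exponents -/
def pw (T : G) (P : Polynomial ℤ) (n : ℤ) : G := T ^ P.eval n

/-- the difference of a polynomial -/
noncomputable def dl (P : Polynomial ℤ) : Polynomial ℤ := P.comp (Polynomial.X + Polynomial.C 1) - P

theorem D_pw (T : G) (P : Polynomial ℤ) : D (pw T P) = pw T (dl P) := by
  funext n
  unfold D pw dl
  rw [← zpow_neg, ← zpow_add]
  congr 1
  simp [Polynomial.eval_comp]
  ring

theorem dl_deg (P : Polynomial ℤ) : dl P = 0 ∨ (dl P).natDegree + 1 ≤ P.natDegree := by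
  by_cases h0 : P.natDegree = 0
  · left
    rw [Polynomial.eq_C_of_natDegree_eq_zero h0]
    simp [dl]
  · by_cases h : dl P = 0
    · exact Or.inl h
    · right
      have hP : P ≠ 0 := by
        rintro rfl
        simp at h0
      have h1 : (P.comp (Polynomial.X + Polynomial.C 1)).natDegree = P.natDegree := by
        rw [Polynomial.natDegree_comp, Polynomial.natDegree_X_add_C, mul_one]
      have hne : P.comp (Polynomial.X + Polynomial.C 1) ≠ 0 := by
        intro hh
        rw [hh, Polynomial.natDegree_zero] at h1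
        exact h0 h1.symm
      have h2 : (P.comp (Polynomial.X + Polynomial.C 1)).leadingCoeff = P.leadingCoeff := by
        rw [Polynomial.leadingCoeff_comp (by rw [Polynomial.natDegree_X_add_C]; norm_num),
          Polynomial.leadingCoeff_X_add_C, one_pow, mul_one]
      have hdeg : (P.comp (Polynomial.X + Polynomial.C 1)).degree = P.degree := by
        rw [Polynomial.degree_eq_natDegree hne, Polynomial.degree_eq_natDegree hP, h1]
      have h3 := Polynomial.degree_sub_lt hdeg hne h2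
      have h4 := Polynomial.natDegree_lt_natDegree h h3
      rw [h1] at h4
      exact h4

theorem pw_Pol (_he : 1 ≤ e) {T : G} (hT : T ∈ S) (k : ℕ) : ∀ (s : ℕ) (P : Polynomial ℤ),
    (P = 0 ∨ P.natDegree + s ≤ e) → pw T P ∈ Pol (Fil S e) k s := by
  have hval : ∀ (s : ℕ) (P : Polynomial ℤ), (P = 0 ∨ P.natDegree + s ≤ e) → ∀ n,
      pw T P n ∈ Fil S e s := by
    intro s P hP n
    rcases hP with rfl | hP
    · simp only [pw, Polynomial.eval_zero, zpow_zero]
      exact one_mem _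
    · have h1 : (s - 1) / e = 0 := Nat.div_eq_of_lt (by omega)
      unfold Fil
      rw [h1, Subgroup.lowerCentralSeries_zero]
      exact S.zpow_mem hT _
  induction k with
  | zero => intro s P hP n; exact hval s P hP n
  | succ k ih =>
    intro s P hP
    refine ⟨hval s P hP, ?_⟩
    rw [D_pw]
    apply ih
    rcases hP with rfl | hP
    · left
      simp [dl]
    · rcases dl_deg P with h | h
      · exact Or.inl h
      · right
        omega

/-- words in powers with polynomial exponents -/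
theorem word_PolG (he : 1 ≤ e) {d : ℕ} {T : Fin d → G} (hT : ∀ i, T i ∈ S) {P : Fin d → Polynomial ℤ}
    (hP : ∀ i, (P i).natDegree + 1 ≤ e) :
    (fun n : ℤ => (List.ofFn fun i : Fin d => T i ^ (P i).eval n).prod) ∈
      PolG (Fil S e) Fil_anti (Fil_comm he) 1 := by
  have h : (fun n : ℤ => (List.ofFn fun i : Fin d => T i ^ (P i).eval n).prod) =
      (List.ofFn fun i : Fin d => pw (T i) (P i)).prod := by
    funext n
    induction d with
    | zero => simp
    | succ d ih =>
      rw [List.ofFn_succ, List.prod_cons, List.ofFn_succ, List.prod_cons, Pi.mul_apply,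
        ← ih (fun i => hT i.succ) (fun i => hP i.succ)]
      rfl
  rw [h]
  apply list_prod_mem
  intro x hx
  rw [List.mem_ofFn] at hx
  obtain ⟨i, rfl⟩ := hx
  exact fun k => pw_Pol he (hT i) k 1 (P i) (Or.inr (hP i))

end

section
variable {X : Type}

/-- the permutations of the sequence space -/
def Th (g : ℤ → Equiv.Perm X) (l : ℤ) : Equiv.Perm (ℤ → X) where
  toFun y i := g i (y (i + l))
  invFun y i := (g (i - l))⁻¹ (y (i - l))
  left_inv y := by
    funext i
    simp
  right_inv y := by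
    funext i
    simp

theorem Th_apply (g : ℤ → Equiv.Perm X) (l : ℤ) (y : ℤ → X) (i : ℤ) :
    Th g l y i = g i (y (i + l)) := rfl

theorem Th_symm_apply (g : ℤ → Equiv.Perm X) (l : ℤ) (y : ℤ → X) (i : ℤ) :
    (Th g l).symm y i = (g (i - l))⁻¹ (y (i - l)) := rfl

theorem Th_mul (g h : ℤ → Equiv.Perm X) (l m : ℤ) :
    Th g l * Th h m = Th (g * sh l h) (l + m) := by
  ext y i
  simp only [Equiv.Perm.mul_apply, Th_apply, Pi.mul_apply, sh]
  rw [add_assoc]

theorem Th_one : Th (1 : ℤ → Equiv.Perm X) 0 = 1 := by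
  ext y i
  simp [Th_apply]

theorem Th_inv (g : ℤ → Equiv.Perm X) (l : ℤ) : (Th g l)⁻¹ = Th (sh (-l) g⁻¹) (-l) := by
  rw [inv_eq_iff_mul_eq_one, Th_mul, add_neg_cancel]
  have : g * sh l (sh (-l) g⁻¹) = 1 := by
    funext n
    simp [sh]
  rw [this, Th_one]

theorem Th_div (g h : ℤ → Equiv.Perm X) (l : ℤ) : Th g l * (Th h l)⁻¹ = Th (g * h⁻¹) 0 := by
  rw [Th_inv, Th_mul, add_neg_cancel]
  have : sh l (sh (-l) h⁻¹) = h⁻¹ := by
    funext n
    simp [sh]
  rw [this]

theorem Th_comm (g h : ℤ → Equiv.Perm X) (l m : ℤ) : ⁅Th g l, Th h m⁆ =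
    Th (⁅g, sh l h⁆ * (sh l h * (sh m g * g⁻¹)⁻¹ * (sh l h)⁻¹) * (sh l h * h⁻¹)) 0 := by
  have h1 : ⁅Th g l, Th h m⁆ = (Th g l * Th h m) * (Th h m * Th g l)⁻¹ := by
    rw [commutatorElement_def]
    group
  rw [h1, Th_mul, Th_mul, add_comm m l, Th_div]
  congr 1
  rw [commutatorElement_def]
  group

variable {S : Subgroup (Equiv.Perm X)} {e : ℕ}

/-- the group generated by the shift and by the polynomial sequences -/
def L0 (S : Subgroup (Equiv.Perm X)) (e : ℕ) (he : 1 ≤ e) : Subgroup (Equiv.Perm (ℤ → X)) where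
  carrier := {w | ∃ (l : ℤ) (g : ℤ → Equiv.Perm X),
    g ∈ PolG (Fil S e) Fil_anti (Fil_comm he) 1 ∧ w = Th g l}
  mul_mem' := by
    rintro _ _ ⟨l, g, hg, rfl⟩ ⟨m, h, hh, rfl⟩
    exact ⟨l + m, g * sh l h, mul_mem hg (PolS_sh hh l), Th_mul _ _ _ _⟩
  one_mem' := ⟨0, 1, one_mem _, Th_one.symm⟩
  inv_mem' := by
    rintro _ ⟨l, g, hg, rfl⟩
    exact ⟨-l, sh (-l) g⁻¹, PolS_sh (inv_mem hg) (-l), Th_inv _ _⟩

/-- the polynomial sequences of weight `s` -/
def L (S : Subgroup (Equiv.Perm X)) (e : ℕ) (he : 1 ≤ e) (s : ℕ) : Subgroup (Equiv.Perm (ℤ → X)) where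
  carrier := {w | ∃ (g : ℤ → Equiv.Perm X),
    g ∈ PolG (Fil S e) Fil_anti (Fil_comm he) s ∧ w = Th g 0}
  mul_mem' := by
    rintro _ _ ⟨g, hg, rfl⟩ ⟨h, hh, rfl⟩
    refine ⟨g * sh 0 h, mul_mem hg (PolS_sh hh 0), ?_⟩
    rw [Th_mul, add_zero]
  one_mem' := ⟨1, one_mem _, Th_one.symm⟩
  inv_mem' := by
    rintro _ ⟨g, hg, rfl⟩
    refine ⟨sh (-0) g⁻¹, PolS_sh (inv_mem hg) _, ?_⟩
    rw [Th_inv, neg_zero]

theorem conj_PolG {he : 1 ≤ e} {a b : ℕ} {g x : ℤ → Equiv.Perm X}
    (hg : g ∈ PolG (Fil S e) Fil_anti (Fil_comm he) a)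
    (hx : x ∈ PolG (Fil S e) Fil_anti (Fil_comm he) b) :
    g * x * g⁻¹ ∈ PolG (Fil S e) Fil_anti (Fil_comm he) b := by
  have h1 : g * x * g⁻¹ = ⁅g, x⁆ * x := by
    rw [commutatorElement_def]
    group
  rw [h1]
  exact mul_mem (PolG_anti (by omega) (PolG_comm hg hx)) hx

theorem lcs_le (he : 1 ≤ e) (t : ℕ) : (L0 S e he).lowerCentralSeries (t + 1) ≤ L S e he (t + 2) := by
  induction t with
  | zero =>
    rw [Subgroup.lowerCentralSeries_succ, Subgroup.lowerCentralSeries_zero, Subgroup.commutator_le]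
    rintro _ ⟨l, g, hg, rfl⟩ _ ⟨m, h, hh, rfl⟩
    rw [Th_comm]
    refine ⟨_, ?_, rfl⟩
    have hh' : sh l h ∈ PolG (Fil S e) Fil_anti (Fil_comm he) 1 := PolS_sh hh l
    refine mul_mem (mul_mem ?_ ?_) ?_
    · have := PolG_comm hg hh'
      exact PolG_anti (by omega) this
    · exact conj_PolG (he := he) (b := 1 + 1) hh' (inv_mem (PolG_diff hg m))
    · exact PolG_diff hh l
  | succ t ih =>
    rw [Subgroup.lowerCentralSeries_succ, Subgroup.commutator_le]
    intro x hx y hy
    obtain ⟨g, hg, rfl⟩ := ih hx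
    obtain ⟨m, h, hh, rfl⟩ := hy
    rw [Th_comm]
    refine ⟨_, ?_, rfl⟩
    have hh' : sh 0 h ∈ PolG (Fil S e) Fil_anti (Fil_comm he) 1 := PolS_sh hh 0
    have e0 : sh 0 h * h⁻¹ = 1 := by
      funext n
      simp [sh]
    rw [e0, mul_one]
    refine mul_mem ?_ ?_
    · have := PolG_comm hg hh'
      exact PolG_anti (by omega) this
    · exact conj_PolG (he := he) (b := t + 2 + 1) hh' (inv_mem (PolG_diff hg m))

theorem lcs_bot (he : 1 ≤ e) {k : ℕ} (hk : 1 ≤ k) (hS : S.lowerCentralSeries k = ⊥) :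
    (L0 S e he).lowerCentralSeries (k * e) = ⊥ := by
  obtain ⟨t, ht⟩ : ∃ t, k * e = t + 1 := ⟨k * e - 1, by
    have : 1 ≤ k * e := Nat.mul_pos hk he
    omega⟩
  rw [eq_bot_iff, ht]
  refine (lcs_le he t).trans ?_
  rintro _ ⟨g, hg, rfl⟩
  have h1 : g = 1 := by
    funext n
    have h2 := PolS_val hg n
    unfold Fil at h2
    have h3 : (t + 2 - 1) / e = k := by
      rw [show t + 2 - 1 = k * e by omega, Nat.mul_div_cancel _ (by omega)]
    rw [h3, hS, Subgroup.mem_bot] at h2
    exact h2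
  rw [h1, Th_one]
  exact one_mem _

end

end Pool.Agent.H87.NC.LL
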